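import Pool.Agent.U536.CF.TU
import Pool.Agent.Results.MP_470b79_ag.MultiplicativeValues

/-!
# De Rham-Betti groups of the fibres at integers with large common factors with the values of multiplicative functions contain the connected monodromy group

Let `F_1, ..., F_k` be positive multiplicative functions of at most polynomial growth such that `F_i p ≤ M p` for the
large primes `p`, with different values at different large primes; for example Euler's function or the sum of the
divisors. Let `b < 1` and `0 ≤ c < 2 b - 1`. Let `f Z' = Z A`, `W Z = 1`, where `f ∈ ℚ[z]`, `f(0) ≠ 0`, `A` is a matrix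
over `ℚ[z]` and the entries of `Z` and `W` are G-functions with rational coefficients, for example the Gauss-Manin
connection of a family of smooth projective varieties over `ℚ(z)` with good fibre at `z = 0`; let `Ω` be any invertible
complex matrix, `K` any number field of degree `≤ D` and `C₀` any complex matrix of rank `r` (the periods of `M_0`). For
all tuples `m` in `[1, N]^k` but `N^k exp (-(log N)^c)`, for EVERY tuple `w` of integers `w_i ≥ exp ((log N)^b)` such that
`gcd(w_i, F_i(m_i)) ≥ w_j^ρ` for all `i`, `j`, the conclusion `Full` of `MonodromyTorsors` holds for the periods of `M_0`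
and of the fibres at `z = 1 / w_1, …, 1 / w_k`: every `K`-subtorsor which contains the period matrix is stable under `1 ×
G^k`, where `G` is the connected monodromy group, every de Rham-Betti class in a mixed tensor space is fixed by `1 × G^k`,
and the Lie algebra of the group of such a subtorsor is normalised by `1 × Gal^k`; `ρ < 1` depends only on the family,
`k`, `D`, `r`, and the bound `N ≥ N₀` does not depend on `Ω`, `K`, `C₀`. The tuples `w` include all tuples of large
divisors `w_i` of the `F_i(m_i)` of comparable size and their multiples by small integers.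

Proof. But for few exceptional `m_i ≤ N`, the number of `m_i` with `g ∣ F_i(m_i)` is at most `N τ_J(g) / g` up to a factor
`exp ((log N)^s)`, `J = (log N)^a`, `a < s < b`, for all `g`: write `m_i = k u` with `u` squarefree and composed of primes
larger than `N^(1/J)`, `k ≤ exp (4 (log N)^a)`. If `w` is an exceptional tuple with `w_i ≤ X`, then the `g_i = gcd(w_i,
F_i(m_i))` are divisors of the `w_i` of size `≥ (X/2)^ρ`; there are few such tuples of divisors, and the inequality `τ_J^q
≤ τ_K` for `K ≥ J^q` with Hölder's inequality for tuples bounds the sum of `∏ τ_J(g_i) / g_i`. The file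
`MultiplicativeValues` of the starting library treats the tuples `w = (F_i(m_i))` only, with `N^k / (log N)^U` exceptions.
-/

set_option autoImplicit false

namespace Pool.Agent.Results.MP_470b79_ag.CommonFactors

open PowerSeries
open Pool.Agent.Results.MP_470b79_ag.MonodromyTorsors (GCond Full)
open Pool.Agent.N733.TG (LM lm_totient lm_sigma)
open Pool.Agent.U536.CF (CommonT avoidT commonT_of_dvd exists_rho)

/-- **De Rham-Betti groups of the fibres at integers with large common factors with the values of multiplicative functions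
contain the connected monodromy group.** Let `f Z' = Z A`, `W Z = 1`, where `f ∈ ℚ[z]`, `f(0) ≠ 0`, `A` is a matrix over
`ℚ[z]` and the entries of `Z` and `W` are G-functions with rational coefficients, for example the Gauss-Manin connection
of a family of smooth projective varieties over `ℚ(z)` with good fibre at `z = 0`; let `Ω` be any invertible complex
matrix, `K` any number field of degree `≤ D` and `C₀` any complex matrix of rank `r` (the periods of `M_0`). Let the `F_i`
be multiplicative and positive, of at most polynomial growth, with `F_i p ≤ M p` at the large primes, and injective there.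
Let `b < 1` and `0 ≤ c < 2 b - 1`. For all large `N`, for all tuples `m` in `[1, N]^k` but `N^k exp (-(log N)^c)`, for
EVERY tuple `w` of integers `w_i ≥ exp ((log N)^b)` with `gcd(w_i, F_i(m_i)) ≥ w_j^ρ` for all `i`, `j`, the conclusion
`Full` of `MonodromyTorsors` holds for the periods of `M_0` and of the fibres at `z = 1 / w_1, …, 1 / w_k`: every
`K`-subtorsor which contains the period matrix is stable under `1 × G^k`, where `G` is the connected monodromy group,
every de Rham-Betti class in a mixed tensor space is fixed by `1 × G^k`, and the Lie algebra of the group of such a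
subtorsor is normalised by `1 × Gal^k`; `ρ < 1` depends only on the family, `k`, `D`, `r`, and the bound `N ≥ N₀` does not
depend on `Ω`, `K`, `C₀`. Tuples of divisors `w_i ≥ exp ((log N)^b)` of the `F_i(m_i)` with `w_j^ρ ≤ w_i` for all `i`, `j`
are such tuples. Euler's function and the sum of the divisors are examples of the `F_i`. -/
theorem result :
    (∀ (n : ℕ) (f : Polynomial ℚ) (A : Matrix (Fin n) (Fin n) (Polynomial ℚ)) (Z W : Matrix (Fin n) (Fin n) ℚ⟦X⟧),
      f.coeff 0 ≠ 0 →
      (∀ i j, (f : ℚ⟦X⟧) * PowerSeries.derivative ℚ (Z i j) = ∑ k, Z i k * (A k j : ℚ⟦X⟧)) →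
      W * Z = 1 → (∀ i j, GCond (Z i j)) → (∀ i j, GCond (W i j)) →
      ∃ x₀ : ℕ, ∀ k D r : ℕ, 1 ≤ k → ∃ ρ : ℝ, 0 < ρ ∧ ρ < 1 ∧ ∀ F : Fin k → ℕ → ℕ, (∀ i, LM (F i)) →
      ∀ b c : ℝ, b < 1 → 0 ≤ c → c < 2 * b - 1 → ∃ N₀ : ℕ, ∀ N : ℕ, N₀ ≤ N →
      ∀ Ω : Matrix (Fin n) (Fin n) ℂ, IsUnit Ω → ∀ K : Subfield ℂ, FiniteDimensional ℚ K → Module.finrank ℚ K ≤ D →
      ∀ C₀ : Matrix (Fin r) (Fin r) ℂ,
      ({m : Fin k → ℕ | (∀ i, 1 ≤ m i ∧ m i ≤ N) ∧ ¬ ∀ w : Fin k → ℕ, CommonT F b ρ N m w →
        Full K C₀ Ω Z x₀ w}.ncard : ℝ) ≤ (N : ℝ) ^ k * Real.exp (-(Real.log N ^ c))) ∧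
    (LM Nat.totient ∧ LM (fun m => ∑ d ∈ m.divisors, d)) ∧
    ∀ (k : ℕ) (F : Fin k → ℕ → ℕ) (b ρ : ℝ) (N : ℕ) (m w : Fin k → ℕ), (∀ i, Real.exp (Real.log N ^ b) ≤ (w i : ℝ)) →
      (∀ i, w i ∣ F i (m i)) → (∀ i j, (w j : ℝ) ^ ρ ≤ (w i : ℝ)) → CommonT F b ρ N m w := by
  refine ⟨?_, ⟨lm_totient, lm_sigma⟩, fun k F b ρ N m w h1 h2 h3 => commonT_of_dvd h1 h2 h3⟩
  classical
  intro n f A Z W hf hode hW hGZ hGW
  obtain ⟨x₀, G, hmain⟩ := MonodromyTorsors.result n f A Z W hf hode hW hGZ hGW
  refine ⟨x₀, fun k D r hk => ?_⟩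
  obtain ⟨-, c, hc, C, hcount⟩ := hmain k D r
  obtain ⟨ρ, hρ0, hρ1, hρ⟩ := exists_rho hk hc
  refine ⟨ρ, hρ0, hρ1, fun F hF b c₁ hb hc₁ hcb => ?_⟩
  obtain ⟨N₀, hN₀⟩ := avoidT hk hF hρ0 hρ1.le hρ C hb hc₁ hcb
  refine ⟨N₀, fun N hN Ω hΩ K hK hKD C₀ => ?_⟩
  refine le_trans (le_of_eq ?_) (hN₀ N hN {m : Fin k → ℕ | ¬ Full K C₀ Ω Z x₀ m} (fun T hT => by
    refine le_trans ?_ (hcount Ω hΩ K hK hKD C₀ T hT)
    rw [← Set.ncard_coe_finset]
    refine Nat.cast_le.2 (Set.ncard_le_ncard ?_ (Finset.finite_toSet _))
    rintro m ⟨hm, hm2⟩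
    rw [Finset.mem_coe, Finset.mem_filter, Fintype.mem_piFinset]
    refine ⟨fun i => ?_, hm2⟩
    rw [Finset.mem_Icc]
    exact hm i))
  congr 2
  ext m
  simp only [Set.mem_ofPred_eq]
  refine and_congr Iff.rfl ⟨?_, ?_⟩
  · intro h
    by_contra hcon
    exact h (fun w hw => by_contra (fun h2 => hcon ⟨w, h2, hw⟩))
  · rintro ⟨w, h1, h2⟩ h3
    exact h1 (h3 w h2)

end Pool.Agent.Results.MP_470b79_ag.CommonFactors
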