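import Pool.Agent.S821.GR7
import Pool.Agent.S821.GQ12
import Pool.Agent.Results.MP_f11a48_ag.HyperellipticSmallestSubtorsor

/-!
# The de Rham-Betti classes on all tensor powers of ALL finite families of hyperelliptic motives outside of one sparse set

Let `K` be a field of algebraic numbers, `M = M_1 ⊕ … ⊕ M_N` a sum of polarised de Rham-Betti objects over `K` of odd weight
and the same rank `n`, with period matrices `c_j`, and `c = c_1 ⊕ … ⊕ c_N`. A de Rham-Betti class of weight `m` in `M^{⊗ w}`
is given by its coefficients `F` (Betti side) with `l^m F = c^{⊗ w} a`, `a` with values in `K`, `l = 2 π i`. The coefficients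
`F` are allowed to be in `K`; the rational ones are the de Rham-Betti classes of the problem. (Mixed tensor spaces are included:
by the polarisations `M_j^∨` is `M_j` up to a Tate twist.)

The question says that for motives all these classes are motivated. The simplest classes are those in degree two, in
`M_i ⊗ M_j`: for curves and abelian varieties they are classes of divisors, by the analytic subgroup theorem of Wüstholz: the
polarisations and the isogenies between the summands. The theorem says that there are NO OTHER CLASSES: all the classes in all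
tensor powers come from the classes in degree two. More precisely `Generated`:

* the classes over `K` are exactly the `K`-linear combinations of the products of matrices `W_1, …, W_m` over `K` in the pairs of
tensor factors, each of them a class in degree two up to a factor `ν_l` with `ν_l² ∈ K` (`IsPairClass`: `2 π i ν_l W_l = c S_l cᵀ`
with `S_l` over `K`), such that `ν_1 ⋯ ν_m ∈ K`. The factors are needed: an isogeny between two summands may be defined over a
quadratic extension of `K`, for example if one of the summands is a quadratic twist of the other one;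

* if there are no isogenies between the summands (`Isogeny`, linear relations over `K` between the periods), the classes are the
combinations of products of polarisations, over `K` and also over `ℚ` for the rational classes.

1. (Criterion.) This is true if for each of the summands the smallest `K`-subtorsor which contains `c_j` is the torsor of the
polarisation. So relations between the periods of different summands do not have to be considered at all. For the de Rham-Betti
GROUPS (Tannaka groups over `ℚ`) this is the criterion of Goursat, Kolchin and Ribet; here the coefficients are in `K` and the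
left and the right side of the torsor have to be compared.

2. (All finite families outside of one sparse set.) Let `f_1, …, f_L ∈ ℚ[X]` be monic of degree `n = 2g` with distinct real
roots which are not zero, and `C_j(z)` the curve `y² = f_j(x) (x - z)` of genus `g`. There is a set `E` of natural numbers with at
most `C T exp (-√(log T))` elements `≤ T` such that for ALL finite families of the motives `h^1(C_j(1/t))`, `t ∉ E`, of any size
and with repetitions, and all number fields `K` (with `t ≥ 3^(([K:ℚ] + 2)^C)`, so for all but finitely many `t` if `K` is given)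
all the de Rham-Betti classes over `K` in all the tensor powers come from the classes in degree two. So for all motives `N` over
`K` in the tensor category generated by the `h^1` of such curves, in particular for the cohomology of all products of powers of
the curves, of their jacobians and of isogenous abelian varieties, every de Rham-Betti class is algebraic.

The theorems `Y123.ST`, `Y118.HG` of the starting library (and `MP_bf54cf_ag.HyperellipticPowers` of this run) treat a fixed
number of curves without isogenies; there the exceptional set is a set of tuples `(t_1, …, t_N)` in cubes, and its size depends on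
the number `N` of the curves in an unspecified way. `MP_f11a48_ag.AllFiniteFamilies` is about the smallest subtorsors.

Proof of 1: `Pool/Agent/S821/GR1` to `GR7`, with `GQ1` to `GQ11`. A class `F` defines a `K`-subtorsor. It contains the points
`A_k⁻¹ g_{r(k)} A_k c_k` for all symplectic matrices `g_i` in the representatives of the isogeny classes (the argument of
Goursat, Kolchin and Ribet for subtorsors). So `F`, moved to the representatives by the `A_k`, is invariant under the product of
the symplectic groups, component by component. By the first fundamental theorem it is a combination of products of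
polarisations; moved back, these are the products of pair classes, and the period matrix shows that the product of the factors
is in `K`.
-/

set_option autoImplicit false

open Filter Polynomial Matrix

namespace Pool.Agent.Results.MP_470b79_ag.GeneratedInDegreeTwo

open Pool.Agent.Results.MP_f11a48_ag.HyperellipticSmallestSubtorsor (IsSubtorsor IsOmega polB Respects polTorsor branch
  period polDR)

/-- `F` is a de Rham-Betti class of weight `m` over `K` in the tensor power `w` of the object with period matrix `c`: its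
coefficients are in `K`, and `l^m F = c^{⊗ w} a` with `a` with values in `K`. -/
def IsClass {B : Type} [Fintype B] (K : Subfield ℂ) (l : ℂ) (c : Matrix B B ℂ) {w : ℕ} (m : ℕ) (F : (Fin w → B) → ℂ) :
    Prop :=
  (∀ I, F I ∈ K) ∧ ∃ a : (Fin w → B) → ℂ, (∀ I, a I ∈ K) ∧ ∀ I, l ^ m * F I = ∑ J, (∏ k, c (I k) (J k)) * a J

/-- `W` is a class in degree two over `K` up to the factor `ν` with `ν² ∈ K`: `l ν W = c S cᵀ`, `W` and `S` over `K` -/
def IsPairClass {B : Type} [Fintype B] (K : Subfield ℂ) (l : ℂ) (c : Matrix B B ℂ) (ν : ℂ) (W : Matrix B B ℂ) : Prop :=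
  ν ≠ 0 ∧ ν ^ 2 ∈ K ∧ (∀ p q, W p q ∈ K) ∧ ∃ S : Matrix B B ℂ, (∀ p q, S p q ∈ K) ∧ (l * ν) • W = c * S * cᵀ

/-- the products, in pairs of tensor factors, of `m` pair classes with factors whose product is in `K` -/
def products {B : Type} [Fintype B] (K : Subfield ℂ) (l : ℂ) (c : Matrix B B ℂ) (w m : ℕ) : Set ((Fin w → B) → ℂ) :=
  {G | ∃ (e : Fin m × Fin 2 ≃ Fin w) (W : Fin m → Matrix B B ℂ) (ν : Fin m → ℂ),
    (∀ i, IsPairClass K l c (ν i) (W i)) ∧ ∏ i, ν i ∈ K ∧ ∀ I, G I = ∏ i, W i (I (e (i, 0))) (I (e (i, 1)))}

/-- the products, in pairs of tensor factors, of the polarisations of the summands `b 1, …, b m` -/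
def polProducts (n N w m : ℕ) : Set ((Fin w → Fin n × Fin N) → ℚ) :=
  {G | ∃ (e : Fin m × Fin 2 ≃ Fin w) (b : Fin m → Fin N), ∀ I, G I =
    ∏ i, if (I (e (i, 0))).2 = b i ∧ (I (e (i, 1))).2 = b i then polB n (I (e (i, 0))).1 (I (e (i, 1))).1 else 0}

/-- An isogeny between the objects with period matrices `c`, `c'` and polarisations `Q`, `Q'`: matrices `A`, `B` over `K` and
`ν ≠ 0` with `A c' = ν c B`, such that `A`, `B` respect the polarisations up to factors `a`, `b` of `K`, with `a = ν² b ≠ 0` -/
def Isogeny {n : ℕ} (K : Subfield ℂ) (Q Q' c c' : Matrix (Fin n) (Fin n) ℂ) (A B : Matrix (Fin n) (Fin n) K) (ν : ℂ) : Prop :=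
  ν ≠ 0 ∧ A.map (algebraMap K ℂ) * c' = ν • (c * B.map (algebraMap K ℂ)) ∧
  ∃ a b : K, b ≠ 0 ∧ (a : ℂ) = ν ^ 2 * b ∧
    A.map (algebraMap K ℂ) * (polB n).map (algebraMap ℚ ℂ) * (A.map (algebraMap K ℂ))ᵀ =
      (a : ℂ) • (polB n).map (algebraMap ℚ ℂ) ∧
    B.map (algebraMap K ℂ) * Q' * (B.map (algebraMap K ℂ))ᵀ = (b : ℂ) • Q

/-- All the de Rham-Betti classes over `K` in all the tensor powers come from the classes in degree two; if there are no
isogenies between the summands, from the polarisations, also with rational coefficients. -/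
def Generated {n N : ℕ} (K : Subfield ℂ) (l : ℂ) (Q c : Fin N → Matrix (Fin n) (Fin n) ℂ) : Prop :=
  ∀ w m : ℕ,
    (∀ F : (Fin w → Fin n × Fin N) → ℂ, IsClass K l (Matrix.blockDiagonal c) m F ↔
      F ∈ Submodule.span K (products K l (Matrix.blockDiagonal c) w m)) ∧
    ((∀ (i j : Fin N) (A B : Matrix (Fin n) (Fin n) K) (ν : ℂ), i ≠ j → ¬ Isogeny K (Q i) (Q j) (c i) (c j) A B ν) →
      (∀ F : (Fin w → Fin n × Fin N) → ℂ, IsClass K l (Matrix.blockDiagonal c) m F ↔
        F ∈ Submodule.span K ((fun G I => (G I : ℂ)) '' polProducts n N w m)) ∧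
      ∀ F : (Fin w → Fin n × Fin N) → ℚ, IsClass K l (Matrix.blockDiagonal c) m (fun I => (F I : ℂ)) ↔
        F ∈ Submodule.span ℚ (polProducts n N w m))

/-- rational elements of the span over `K` of rational vectors -/
theorem descent {K : Subfield ℂ} {X : Type} {S : Set (X → ℚ)} {F : X → ℚ}
    (h : (fun x => (F x : ℂ)) ∈ Submodule.span K ((fun G x => (G x : ℂ)) '' S)) : F ∈ Submodule.span ℚ S := by
  obtain ⟨φ, hφ⟩ := LinearMap.exists_leftInverse_of_injective (LinearMap.toSpanSingleton ℚ ℂ 1)
    (LinearMap.ker_toSpanSingleton ℚ one_ne_zero)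
  have h1 : ∀ q : ℚ, ∀ z : ℂ, φ (z * q) = q * φ z := by
    intro q z
    have h2 : z * (q : ℂ) = q • z := by rw [Rat.smul_def, mul_comm]
    rw [h2, map_smul, smul_eq_mul]
  have h2 : φ 1 = 1 := by
    have h3 := LinearMap.congr_fun hφ (1 : ℚ)
    simpa using h3
  have key : ∀ H ∈ Submodule.span K ((fun (G : X → ℚ) x => (G x : ℂ)) '' S), ∀ z : ℂ,
      (fun x => φ (z * H x)) ∈ Submodule.span ℚ S := by
    intro H hH
    induction hH using Submodule.span_induction with
    | mem H hH =>
      intro z
      obtain ⟨G, hG, rfl⟩ := hH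
      have h3 : (fun x => φ (z * (G x : ℂ))) = φ z • G := by
        funext x
        rw [h1, Pi.smul_apply, smul_eq_mul, mul_comm]
      rw [h3]
      exact Submodule.smul_mem _ _ (Submodule.subset_span hG)
    | zero =>
      intro z
      have h3 : (fun x : X => φ (z * (0 : X → ℂ) x)) = 0 := by
        funext x
        rw [Pi.zero_apply, mul_zero, map_zero]
        rfl
      rw [h3]
      exact Submodule.zero_mem _
    | add H H' _ _ h3 h4 =>
      intro z
      have h5 : (fun x => φ (z * (H + H') x)) = (fun x => φ (z * H x)) + fun x => φ (z * H' x) := by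
        funext x
        rw [Pi.add_apply, Pi.add_apply, mul_add, map_add]
      rw [h5]
      exact Submodule.add_mem _ (h3 z) (h4 z)
    | smul k H _ h3 =>
      intro z
      have h4 : (fun x => φ (z * (k • H) x)) = fun x => φ (z * k * H x) := by
        funext x
        rw [Pi.smul_apply, mul_assoc]
        rfl
      rw [h4]
      exact h3 _
  have h3 := key _ h 1
  have h4 : (fun x => φ (1 * (F x : ℂ))) = F := by
    funext x
    rw [h1, h2, mul_one]
  rwa [h4] at h3

theorem generated {n N : ℕ} {K : Subfield ℂ} {Q c : Fin N → Matrix (Fin n) (Fin n) ℂ} {l : ℂ} (hn : Even n) (hn0 : 0 < n)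
    (hN : 0 < N) (hK : ∀ x ∈ K, IsAlgebraic ℚ x) (hQ : ∀ j a b, Q j a b ∈ K) (hl : Transcendental ℚ l) (hc : Respects Q c l)
    (h : ∀ j, IsOmega K (Matrix.blockDiagonal fun _ : Fin 1 => c j) (polTorsor fun _ : Fin 1 => Q j)) :
    Generated K l Q c := by
  intro w m
  have hbm : ∀ p q : Fin n, (polB n p q : ℂ) = -2 * Pool.Agent.Y118.HP.jm ℂ n p q := by
    intro p q
    have h1 := congrFun (congrFun (Pool.Agent.Y118.HP.bm_eq (n := n)) p) q
    exact h1
  -- the products of pair classes
  have e1 : Pool.Agent.S821.GR.Prods K l (Matrix.blockDiagonal c) (Fin w) m =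
      products K l (Matrix.blockDiagonal c) w m := by
    ext G
    constructor
    · rintro ⟨e, W, S, ν, h1, h2, rfl⟩
      exact ⟨e, W, ν, fun i => ⟨(h1 i).2.2.1, (h1 i).2.2.2.1, (h1 i).1, S i, (h1 i).2.1, (h1 i).2.2.2.2⟩, h2, fun I => rfl⟩
    · rintro ⟨e, W, ν, h1, h2, h3⟩
      choose h4 h5 h6 S h7 h8 using h1
      exact ⟨e, W, S, ν, fun i => ⟨h6 i, h7 i, h4 i, h5 i, h8 i⟩, h2, funext h3⟩
  -- the classes
  have e2 : ∀ F : (Fin w → Fin n × Fin N) → ℂ, IsClass K l (Matrix.blockDiagonal c) m F ↔
      (∀ I, F I ∈ K) ∧ ∃ a : (Fin w → Fin n × Fin N) → ℂ, (∀ I, a I ∈ K) ∧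
        Pool.Agent.Y123.ST.tp (Fin w) (Matrix.blockDiagonal c) *ᵥ a = l ^ m • F := by
    intro F
    constructor
    · rintro ⟨h1, a, h2, h3⟩
      refine ⟨h1, a, h2, ?_⟩
      funext I
      exact (h3 I).symm
    · rintro ⟨h1, a, h2, h3⟩
      exact ⟨h1, a, h2, fun I => (congrFun h3 I).symm⟩
  -- the products of polarisations
  have e3 : ∀ F ∈ Submodule.span K (Pool.Agent.S821.GR.Pols n N (Fin w) m),
      F ∈ Submodule.span K ((fun (G : (Fin w → Fin n × Fin N) → ℚ) I => (G I : ℂ)) '' polProducts n N w m) := by
    intro F hF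
    refine (Submodule.span_le.2 ?_) hF
    rintro _ ⟨e, b, rfl⟩
    have h2 : ((-2 : K) ^ m : K) ≠ 0 := pow_ne_zero _ (by norm_num)
    have h3 : (Pool.Agent.S821.GR.prodT e fun l => Pool.Agent.S821.GR.E2 N (b l) (b l) (Pool.Agent.Y118.HP.jm ℂ n)) =
        ((-2 : K) ^ m)⁻¹ • fun I : Fin w → Fin n × Fin N =>
          ((∏ i, if (I (e (i, 0))).2 = b i ∧ (I (e (i, 1))).2 = b i then polB n (I (e (i, 0))).1 (I (e (i, 1))).1 else 0 : ℚ) : ℂ) := by
      rw [eq_inv_smul_iff₀ h2]
      funext I
      rw [Pi.smul_apply]
      have h4 : ∀ z : ℂ, ((-2 : K) ^ m : K) • z = (∏ _i : Fin m, (-2 : ℂ)) * z := by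
        intro z
        rw [Finset.prod_const, Finset.card_univ, Fintype.card_fin]
        show (((-2 : K) ^ m : K) : ℂ) * z = _
        push_cast
        rfl
      rw [h4]
      show (∏ _i : Fin m, (-2 : ℂ)) * (∏ i, Pool.Agent.S821.GR.E2 N (b i) (b i) (Pool.Agent.Y118.HP.jm ℂ n)
        (I (e (i, 0))) (I (e (i, 1)))) = _
      rw [← Finset.prod_mul_distrib, Rat.cast_prod]
      refine Finset.prod_congr rfl fun i _ => ?_
      show -2 * (if (I (e (i, 0))).2 = b i ∧ (I (e (i, 1))).2 = b i then
        Pool.Agent.Y118.HP.jm ℂ n (I (e (i, 0))).1 (I (e (i, 1))).1 else 0) = _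
      split_ifs
      · rw [hbm]
      · simp
    rw [h3]
    exact Submodule.smul_mem _ _ (Submodule.subset_span ⟨_, ⟨e, b, fun I => rfl⟩, rfl⟩)
  -- the products of polarisations are products of pair classes
  have e4 : ∀ F ∈ Submodule.span K ((fun (G : (Fin w → Fin n × Fin N) → ℚ) I => (G I : ℂ)) '' polProducts n N w m),
      F ∈ Submodule.span K (products K l (Matrix.blockDiagonal c) w m) := by
    intro F hF
    refine (Submodule.span_le.2 ?_) hF
    rintro _ ⟨G, ⟨e, b, hG⟩, rfl⟩
    refine Submodule.subset_span ⟨e, fun i => Pool.Agent.S821.GR.E2 N (b i) (b i) ((polB n).map (algebraMap ℚ ℂ)),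
      fun _ => 1, fun i => ⟨one_ne_zero, by rw [one_pow]; exact K.one_mem, ?_,
      Pool.Agent.S821.GR.E2 N (b i) (b i) (Q (b i)), Pool.Agent.S821.GR.E2_memK (hQ _) _ _, ?_⟩, ?_, fun I => ?_⟩
    · exact Pool.Agent.S821.GR.E2_memK (fun p q => SubfieldClass.ratCast_mem K _) _ _
    · rw [mul_one]
      show l • _ = Pool.Agent.Y123.ST.bd c * _ * (Pool.Agent.Y123.ST.bd c)ᵀ
      rw [Pool.Agent.S821.GR.bd_E2, Pool.Agent.S821.GR.E2_bd, Pool.Agent.S821.GR.E2_smul, hc]
    · rw [Finset.prod_const_one]
      exact K.one_mem
    · beta_reduce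
      rw [hG I, Rat.cast_prod]
      refine Finset.prod_congr rfl fun i _ => ?_
      show _ = if (I (e (i, 0))).2 = b i ∧ (I (e (i, 1))).2 = b i then
        (polB n (I (e (i, 0))).1 (I (e (i, 1))).1 : ℂ) else 0
      split_ifs
      · rfl
      · simp
  have e5 : ∀ F ∈ Submodule.span K (products K l (Matrix.blockDiagonal c) w m),
      IsClass K l (Matrix.blockDiagonal c) m F := by
    intro F hF
    rw [← e1] at hF
    exact (e2 F).2 (Pool.Agent.S821.GR.cls_of_prods hF)
  have e6 : ∀ F : (Fin w → Fin n × Fin N) → ℂ, IsClass K l (Matrix.blockDiagonal c) m F →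
      F ∈ Submodule.span K (Pool.Agent.S821.GR.Prods K l (Matrix.blockDiagonal c) (Fin w) m) ∧
      ((∀ (i j : Fin N) (A B : Matrix (Fin n) (Fin n) K) (ν : ℂ), i ≠ j → ¬ Isogeny K (Q i) (Q j) (c i) (c j) A B ν) →
        F ∈ Submodule.span K (Pool.Agent.S821.GR.Pols n N (Fin w) m)) := by
    intro F hF
    obtain ⟨h1, a, h2, h3⟩ := (e2 F).1 hF
    exact Pool.Agent.S821.GR.classes hn hn0 hN hK hQ hl hc h h2 h1 h3
  refine ⟨fun F => ⟨fun hF => ?_, e5 F⟩, fun hno => ?_⟩
  · rw [← e1]
    exact (e6 F hF).1
  · have h1 : ∀ F : (Fin w → Fin n × Fin N) → ℂ, IsClass K l (Matrix.blockDiagonal c) m F ↔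
        F ∈ Submodule.span K ((fun (G : (Fin w → Fin n × Fin N) → ℚ) I => (G I : ℂ)) '' polProducts n N w m) :=
      fun F => ⟨fun hF => e3 F ((e6 F hF).2 hno), fun hF => e5 F (e4 F hF)⟩
    refine ⟨h1, fun F => ⟨fun hF => descent ((h1 _).1 hF), fun hF => (h1 _).2 ?_⟩⟩
    induction hF using Submodule.span_induction with
    | mem G hG => exact Submodule.subset_span ⟨G, hG, rfl⟩
    | zero =>
      have h2 : (fun I => (((0 : (Fin w → Fin n × Fin N) → ℚ) I : ℚ) : ℂ)) = 0 := by
        funext I
        simp
      rw [h2]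
      exact Submodule.zero_mem _
    | add x y _ _ hx hy =>
      have h2 : (fun I => (((x + y) I : ℚ) : ℂ)) = (fun I => (x I : ℂ)) + fun I => (y I : ℂ) := by
        funext I
        simp
      rw [h2]
      exact Submodule.add_mem _ hx hy
    | smul q x _ hx =>
      have h2 : (fun I => (((q • x) I : ℚ) : ℂ)) = (q : K) • fun I => (x I : ℂ) := by
        funext I
        rw [Pi.smul_apply, Pi.smul_apply, smul_eq_mul, Rat.cast_mul]
        show _ = ((q : K) : ℂ) * _
        simp
      rw [h2]
      exact Submodule.smul_mem _ _ hx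

/-- **All the de Rham-Betti classes on all finite families of hyperelliptic curves outside of one sparse set.**

(1) Let `n > 0` be even, `K` a field of algebraic numbers, `Q_j` matrices over `K`, `c_j` with `c_j Q_j c_jᵀ = l polB`, `l`
transcendental, `j = 1, …, N`. If for each `j` the smallest `K`-subtorsor which contains `c_j` is `polTorsor Q_j`, then all the
classes over `K` in all tensor powers of the sum are `Generated` by the classes in degree two.

(2) Let `f_1, …, f_L ∈ ℚ[X]`, `L ≥ 1`, be monic of degree `n = 2g > 0` with distinct real roots `a_j`, all different from `0`;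
`m_j` is the place of `0` among the roots of `f_j`. There are `C` and a set `E` with at most `C T exp (-√(log T))` elements
`≤ T`, `T ≥ 1`, such that for all `D` and ALL finite families `t_1, …, t_k ∉ E`, `t_i ≥ 3^((D + 2)^C)`, and all the choices `θ` of
the polynomials: the `1 / t_i` are in the gaps of `0`, and for the sum of the `h^1` of the curves `y² = f_θ(i)(x) (x - 1 / t_i)` and
all the fields `K` of degree at most `D` all the classes over `K` in all tensor powers are `Generated` by the classes in degree
two. -/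
theorem result :
    (∀ (n N : ℕ) (K : Subfield ℂ) (Q c : Fin N → Matrix (Fin n) (Fin n) ℂ) (l : ℂ), Even n → 0 < n → 0 < N →
      (∀ x ∈ K, IsAlgebraic ℚ x) → (∀ j a b, Q j a b ∈ K) → Transcendental ℚ l → Respects Q c l →
      (∀ j, IsOmega K (Matrix.blockDiagonal fun _ : Fin 1 => c j) (polTorsor fun _ : Fin 1 => Q j)) →
      Generated K l Q c) ∧
    (∀ (n L : ℕ), Even n → 0 < n → 0 < L → ∀ (a : Fin L → Fin n → ℝ) (f : Fin L → ℚ[X]) (m : Fin L → Fin (n + 1)),
      (∀ j, (f j).map (algebraMap ℚ ℝ) = ∏ i, (X - C (a j i))) → (∀ j, StrictMono (branch (a j) (m j) 0)) →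
      ∃ (C₀ : ℕ) (E : Set ℕ),
        (∀ T : ℕ, 1 ≤ T → ({t ∈ E | t ≤ T}.ncard : ℝ) ≤ C₀ * T * Real.exp (-Real.sqrt (Real.log T))) ∧
        ∀ (D k : ℕ) (t : Fin k → ℕ) (θ : Fin k → Fin L), 0 < k → (∀ i, t i ∉ E ∧ 3 ^ ((D + 2) ^ C₀) ≤ t i) →
          (∀ i, StrictMono (branch (a (θ i)) (m (θ i)) (1 / (t i : ℝ)))) ∧
          ∀ K : Subfield ℂ, FiniteDimensional ℚ K → Module.finrank ℚ K ≤ D →
            Generated K (2 * Real.pi * Complex.I)
              (fun i => (polDR n (f (θ i) * (X - C (1 / (t i : ℚ))))).map (algebraMap ℚ ℂ))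
              (fun i => Matrix.of (period (branch (a (θ i)) (m (θ i)) (1 / (t i : ℝ)))))) := by
  refine ⟨fun n N K Q c l hn hn0 hN hK hQ hl hc h => generated hn hn0 hN hK hQ hl hc h, fun n L hn hn0 hL a f m hf h0 => ?_⟩
  obtain ⟨C₂, E, hC₂, hE1, hE2⟩ := Pool.Agent.S821.GQ.hyp_single hn hn0 hL hf h0
  refine ⟨9 * C₂, {t | ∃ D, 3 ^ ((D + 2) ^ (4 * C₂)) ≤ t ∧ t ∈ E D}, ?_, ?_⟩
  · intro T hT
    refine (Pool.Agent.S821.GQ.single_set hC₂ hE1 T hT).trans ?_
    push_cast
    exact le_refl _
  · intro D k t θ hk ht
    have hE : ∀ i, t i ∉ E D := by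
      intro i hi
      refine (ht i).1 ⟨D, le_trans (Nat.pow_le_pow_right (by norm_num) (Nat.pow_le_pow_right (by omega) (by omega)))
        (ht i).2, hi⟩
    refine ⟨fun i => (hE2 D (t i) (θ i) (hE i)).1, fun K hK hKD => ?_⟩
    refine generated (l := (2 * Real.pi * Complex.I : ℂ)) hn hn0 hk ?_ ?_ Pool.Agent.Y123.ST.transc_two_pi_I
      (fun i => (hE2 D (t i) (θ i) (hE i)).2.1) (fun i => (hE2 D (t i) (θ i) (hE i)).2.2 K hK hKD)
    · intro x hx
      have : NumberField K := { to_charZero := inferInstance, to_finiteDimensional := hK }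
      have h6 : IsAlgebraic ℚ (⟨x, hx⟩ : K) := Algebra.IsAlgebraic.isAlgebraic _
      exact h6.algebraMap (A := ℂ)
    · intro j a' b'
      exact SubfieldClass.ratCast_mem K _

end Pool.Agent.Results.MP_470b79_ag.GeneratedInDegreeTwo
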