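import Pool.Agent.U405.RS.G5
import Pool.Agent.Results.MP_470b79_ag.MonodromyTorsors

/-!
# De Rham-Betti groups of the fibres at values of multiplicative functions in thin sets contain the connected monodromy group

Let `F_1, …, F_k` be positive multiplicative functions of at most polynomial growth which for each `a ≥ 1` are injective at the
powers `p ^ a` of the large primes and at most `M p ^ a` there; for example Euler's function or the sum of the divisors. Let `Z` be a fundamental matrix, regular at `z = 0`, of a system `f Z' = Z A` over `ℚ(z)` such that the entries of `Z` and of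
its inverse are G-functions, for example the matrix of the Gauss-Manin connection of `h^i` of ANY family of smooth
projective varieties over `ℚ(z)` with good fibre at `z = 0`, and let `Ω` be any invertible complex matrix (the periods of the
fibre at `z = 0`); then `Ω Z(1/x)` is the period matrix of the fibre `M_x` at `z = 1/x`. For every number field `K` and every de
Rham-Betti object `M_0` over `K` and for almost all `k`-tuples `(a_1, …, a_k)` in products of thin sets:

1. every `K`-subtorsor of `Iso(M_dR, M_B)`, `M = M_0 ⊕ M_(F_1 a_1) ⊕ … ⊕ M_(F_k a_k)`, which contains the period matrix is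
stable under `1 × G^k`, where `G` is the connected monodromy group (in the sense of `MonodromyTorsors`);
2. every de Rham-Betti class in a mixed tensor space of `M` is fixed by `1 × G^k`;
3. the Lie algebra of the group of such a subtorsor is normalised by `1 × Gal^k`.

The result is uniform in `Ω`, in `K` of bounded degree and in `M_0` of given rank.

The starting theorem `MultiplicativeValues` of this problem treats the average over all tuples `m ∈ [1, N]^k`. Here each `m_i` runs
over a thin set: the shifted primes `p + a_i`, `p ≤ x`, for an arbitrary integer `a_i`, or an interval `(u, u + h]` with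
`x^τ ≤ h ≤ x`, where `u ≤ x` and `1 - c / k < τ ≤ 1`; both kinds can be mixed. The tuples of values `(F_1(m_1), …, F_k(m_k))` are taken with large and
uneven multiplicities, so that the size of the exceptional set says nothing about them.

Proof. Own tool `Pool.Agent.U405.RS`. A thin set `S` has at most `B g^ω(n) |S| / n` multiples of `n` for every `n ≤ x^δ` (for the
shifted primes by the Brun-Titchmarsh inequality of the library). Write `m_i = n_i w_i` with `n_i` composed of the primes
`≤ z = x^(1 / J)`, `J` a small multiple of `log log x`. By Rankin's method one has `n_i ≤ x^η` for most `m_i` in `S_i`; and `w_i` has at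
most `J` prime factors and exponents `≤ J`, so that it is determined by `F_i(w_i)` up to `x^o(1)` possibilities. A slab of the
exceptional set is then covered by the fibres over one coordinate, and the saving `X^c` of the exceptional set is larger than the loss
`x^(k (1 - τ))` from the short intervals. The bound for the exceptional tuples is the starting theorem `MonodromyTorsors`.
-/

set_option autoImplicit false

open PowerSeries

namespace Pool.Agent.Results.MP_470b79_ag.ThinTuples

open Pool.Agent.U405.RS
open Pool.Agent.Results.MP_470b79_ag.MonodromyTorsors (GCond Full)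

/-- **De Rham-Betti groups over thin sets.** Let `f Z' = Z A`, `W Z = 1`, where `f ∈ ℚ[z]`,
`f(0) ≠ 0`, `A` is a matrix over `ℚ[z]` and the entries of `Z` and `W` are G-functions with rational coefficients. There is
`x₀` such that for all `k ≥ 1`, `D`, `r` there is `c > 0` such that for all `F_1, …, F_k` in the class `PM`, all `U` and, uniformly, all
invertible `Ω`, all number fields `K ⊂ ℂ` of degree `≤ D` and all complex matrices `C₀` of rank `r`, in the sense of `ThinAll c F U`
(with a saving of `(log x)^U`, uniformly in the parameter, for almost all `m` in all products `S_1 × ⋯ × S_k` of sets of shifted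
primes `p + a_i`, `p ≤ x`, and intervals `(u, u + h]`, `u ≤ x`, `x^τ ≤ h ≤ x`, whenever `0 < τ ≤ 1`, `k τ > k - c`)
all `F_i(a_i)` are at least `2` and the conclusion `Full` of `MonodromyTorsors` holds for the periods of `M_0` and of the fibres at
`z = 1 / F_i(a_i)`. Euler's function, the sum of the divisors and the identity are in the class. -/
theorem result :
    (∀ (n : ℕ) (f : Polynomial ℚ) (A : Matrix (Fin n) (Fin n) (Polynomial ℚ)) (Z W : Matrix (Fin n) (Fin n) ℚ⟦X⟧),
      f.coeff 0 ≠ 0 →
      (∀ i j, (f : ℚ⟦X⟧) * PowerSeries.derivative ℚ (Z i j) = ∑ k, Z i k * (A k j : ℚ⟦X⟧)) →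
      W * Z = 1 → (∀ i j, GCond (Z i j)) → (∀ i j, GCond (W i j)) →
      ∃ x₀ : ℕ, ∀ k D r : ℕ, 1 ≤ k → ∃ c : ℝ, 0 < c ∧ ∀ F : Fin k → ℕ → ℕ, (∀ i, PM (F i)) → ∀ U : ℕ,
        ThinAll c F U (fun (p : Matrix (Fin n) (Fin n) ℂ × Subfield ℂ × Matrix (Fin r) (Fin r) ℂ) (v : Fin k → ℕ) =>
          (IsUnit p.1 ∧ FiniteDimensional ℚ p.2.1 ∧ Module.finrank ℚ p.2.1 ≤ D) →
          (∀ i, 2 ≤ v i) ∧ Full p.2.1 p.2.2 p.1 Z x₀ v)) ∧
    (PM Nat.totient ∧ PM (fun m => ∑ d ∈ m.divisors, d) ∧ PM (fun m => m)) := by
  classical
  refine ⟨fun n f A Z W hf hode hW hGZ hGW => ?_, examplesT⟩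
  obtain ⟨x₀, G, hmain⟩ := MonodromyTorsors.result n f A Z W hf hode hW hGZ hGW
  refine ⟨x₀, fun k D r hk => ?_⟩
  obtain ⟨-, c, hc, C, hcount⟩ := hmain k D r
  refine ⟨c, hc, fun F hF U => thinAll_if hk hF hc C
    (fun p : Matrix (Fin n) (Fin n) ℂ × Subfield ℂ × Matrix (Fin r) (Fin r) ℂ =>
      IsUnit p.1 ∧ FiniteDimensional ℚ p.2.1 ∧ Module.finrank ℚ p.2.1 ≤ D)
    (fun (p : Matrix (Fin n) (Fin n) ℂ × Subfield ℂ × Matrix (Fin r) (Fin r) ℂ) (v : Fin k → ℕ) =>
      Full p.2.1 p.2.2 p.1 Z x₀ v) (fun p hp T hT => ?_) U⟩
  obtain ⟨Ω, K, C₀⟩ := p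
  obtain ⟨hΩ, hK, hKD⟩ := hp
  dsimp only at hΩ hK hKD ⊢
  refine le_trans ?_ (hcount Ω hΩ K hK hKD C₀ T hT)
  rw [← Set.ncard_coe_finset]
  refine Nat.cast_le.2 (Set.ncard_le_ncard ?_ (Finset.finite_toSet _))
  rintro m ⟨hm, hm2⟩
  rw [Finset.mem_coe, Finset.mem_filter, Fintype.mem_piFinset]
  refine ⟨fun i => ?_, hm2⟩
  rw [Finset.mem_Icc]
  exact hm i

end Pool.Agent.Results.MP_470b79_ag.ThinTuples
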