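import Pool.Agent.U534.UnivSeq

/-!
# One infinite sequence of curves which is independent of all motives

Let `F_0, F_1, …` be any sequence of families of hyperelliptic curves `y² = f_j(x) (x - 1 / t)`, where `f_j ∈ ℚ[X]` is monic of
degree `2 g_j` with `2 g_j` distinct real roots which are not zero, and let `A_0, A_1, …` be rich sets of natural numbers
(the number of the elements up to `T` is not `O(T ^ (1 - ε))` for any `ε > 0`, for example sets of positive upper density).
Let `M_0, M_1, …` be any sequence of de Rham-Betti objects, with arbitrary invertible complex period matrices `C_i` of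
arbitrary ranks. (There are only countably many motives over the field of algebraic numbers, so we can take all of them, and
all mixed motives.)

Then there are `t_0 < t_1 < …` with `t_j ∈ A_j`, such that the curves `C_j : y² = f_j(x) (x - 1 / t_j)` have the following
property. For every number field `K` and every `i` there is an `l`, such that for all `k` and all `l ≤ s_1 < … < s_k`:

1. every `K`-subtorsor of `Iso(dR, B)` for `M_i ⊕ ℚ(-1) ⊕ h^1(C_(s_1)) ⊕ … ⊕ h^1(C_(s_k))`, which contains the period matrix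
and respects the decomposition and the polarisations of the `h^1(C_(s_j))`, is the fibre product of its projection to
`M_i ⊕ ℚ(-1)`, which is a `K`-subtorsor, with the torsors of the polarisations;

2. the smallest `K`-subtorsor containing the period matrix is such a fibre product, with the smallest `K`-subtorsor for
`M_i ⊕ ℚ(-1)`; if `M_i = 0` the latter is the multiplicative group.

Consequences. 1 applies to `Ω^dRB`. So there is a single infinite sequence of curves over `ℚ` such that for every motive `M`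
over every number field `K`, and for the sums `N` of finitely many `h^1(C_j)` from some index (which depends on `M` and `K`)
on, the equality `Ω^dRB = Ω^And` holds for `M ⊕ ℚ(-1) ⊕ N` if and only if it holds for `M ⊕ ℚ(-1)`. For `M = 0` it holds.

Proof. The curves are chosen one after the other. The parameter `t_j` is chosen such that for all `a, i ≤ j` (`K_0, K_1, …` is
an enumeration of the number fields) and all subsets `S` of the set of the previous indices, the theorem `rel_hyp_all` of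
helper123 (`Pool/Agent/Y123/SR/R7`, the case of one curve) can be applied over `K_a` with the de Rham-Betti object
`M_i ⊕ ℚ(-1) ⊕ ⨁_(s ∈ S) h^1(C_s)`, which contains the previous curves, in place of `M_0`. By induction on the number of
curves, subtorsors for the sum are fibre products: the projection to the first curves is a subtorsor.
-/

set_option autoImplicit false

open Polynomial Matrix

namespace Pool.Agent.Results.MP_470b79_ag.UniversalCurves

/-- `T` is (the set of complex points of) a `K`-subtorsor of `GL_B = Iso (M_dR, M_B)`: it is closed under `x y⁻¹ z`, and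
it is defined in `GL_B` by polynomials with coefficients in `K`. -/
def IsSubtorsor (K : Subfield ℂ) {B : Type} [Fintype B] [DecidableEq B] (T : Set (Matrix B B ℂ)) : Prop :=
  (∀ x ∈ T, ∀ y ∈ T, ∀ z ∈ T, x * y⁻¹ * z ∈ T) ∧ ∃ I : Set (MvPolynomial (B × B) K), ∀ x : Matrix B B ℂ, x ∈ T ↔
    IsUnit x ∧ ∀ p ∈ I, MvPolynomial.eval (fun b => x b.1 b.2) (MvPolynomial.map (algebraMap K ℂ) p) = 0

/-- `Ω` is the smallest `K`-subtorsor which contains the period matrix `c` -/
def IsOmega (K : Subfield ℂ) {B : Type} [Fintype B] [DecidableEq B] (c : Matrix B B ℂ) (Ω : Set (Matrix B B ℂ)) : Prop :=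
  IsSubtorsor K Ω ∧ c ∈ Ω ∧ ∀ T : Set (Matrix B B ℂ), IsSubtorsor K T → c ∈ T → Ω ⊆ T

/-- `A` is rich: for all `ε > 0` the number of its elements up to `T` is not `O(T ^ (1 - ε))` -/
def Rich (A : Set ℕ) : Prop :=
  ∀ ε : ℝ, 0 < ε → ∀ C : ℝ, ∃ T : ℕ, 1 ≤ T ∧ C * (T : ℝ) ^ (1 - ε) < ((A ∩ Set.Icc 1 T).ncard : ℝ)

/-- the branch points: `t` inserted at place `m` in the sequence of the `a i` -/
noncomputable def branch {n : ℕ} (a : Fin n → ℝ) (m : Fin (n + 1)) (t : ℝ) : Fin (n + 1) → ℝ :=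
  Fin.insertNth (α := fun _ => ℝ) m t a

/-- the period `∮ x^j dx / y`, `y² = ∏ (x - e i)`, over the loop around the segment `[e l, e (l + 1)]`, that is twice
the integral over the segment (principal branch of the square root) -/
noncomputable def period {n : ℕ} (e : Fin (n + 1) → ℝ) (l j : Fin n) : ℂ :=
  2 * ∫ x in (e l.castSucc)..(e l.succ), (x : ℂ) ^ (j : ℕ) / (((∏ i, (x - e i) : ℝ) : ℂ) ^ (1 / 2 : ℂ))

/-- the polarisation in terms of the forms `x^j dx / y`, `y² = F(x) = ∑ c_k x^k`: entries `(i - j)/2 * c_(i+j+2)` -/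
noncomputable def polDR (n : ℕ) (F : ℚ[X]) : Matrix (Fin n) (Fin n) ℚ :=
  Matrix.of fun i j => (((i : ℕ) : ℚ) - ((j : ℕ) : ℚ)) / 2 * F.coeff ((i : ℕ) + (j : ℕ) + 2)

/-- the alternating form with entries `2 (-1)^r` at `(r, s)`, `|r - s| = 1`, the intersection form of the loops -/
def polB (n : ℕ) : Matrix (Fin n) (Fin n) ℚ :=
  Matrix.of fun r s => if (r : ℕ) = s + 1 ∨ (s : ℕ) = r + 1 then 2 * (-1) ^ (r : ℕ) else 0

/-- A family of hyperelliptic curves of genus `g`: `y² = f(x) (x - 1 / t)`, where `f ∈ ℚ[X]` is monic of degree `2 g` with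
the distinct real roots `a i ≠ 0` in increasing order; `0` is at place `m` among them. -/
structure Family where
  /-- the genus -/
  g : ℕ
  /-- the genus is positive -/
  pos : 0 < g
  /-- the polynomial -/
  f : ℚ[X]
  /-- the roots -/
  a : Fin (2 * g) → ℝ
  /-- the place of `0` -/
  m : Fin (2 * g + 1)
  /-- `f = ∏ (X - a i)` -/
  eq : f.map (algebraMap ℚ ℝ) = ∏ i, (X - C (a i))
  /-- the roots and `0` are in increasing order -/
  sorted : StrictMono (branch a m 0)

/-- the period matrix of the curve `y² = f(x) (x - 1 / t)` -/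
noncomputable def Family.per (F : Family) (t : ℕ) : Matrix (Fin (2 * F.g)) (Fin (2 * F.g)) ℂ :=
  Matrix.of (period (branch F.a F.m (1 / (t : ℝ))))

/-- the polarisation of the curve `y² = f(x) (x - 1 / t)` -/
noncomputable def Family.pol (F : Family) (t : ℕ) : Matrix (Fin (2 * F.g)) (Fin (2 * F.g)) ℂ :=
  (polDR (2 * F.g) (F.f * (X - C (1 / (t : ℚ))))).map (algebraMap ℚ ℂ)

/-- the block matrix `x ⊕ μ`; for a period matrix `x` of `M` and `μ = 2πi` the period matrix of `M ⊕ ℚ(-1)` -/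
def withTate {r : ℕ} (x : Matrix (Fin r) (Fin r) ℂ) (μ : ℂ) : Matrix (Fin r ⊕ Unit) (Fin r ⊕ Unit) ℂ :=
  Matrix.fromBlocks x 0 0 (Matrix.of fun _ _ => μ)

/-- the index set of the bases of `M ⊕ ℚ(-1) ⊕ ⨁_l h^1(C_l)`, `C_l` of genus `g l` -/
abbrev Index (r : ℕ) {k : ℕ} (g : Fin k → ℕ) : Type := (Fin r ⊕ Unit) ⊕ (Σ l : Fin k, Fin (2 * g l))

section
variable {r k : ℕ} {g : Fin k → ℕ}

/-- the block matrix `x ⊕ μ ⊕ X_1 ⊕ … ⊕ X_k` -/
noncomputable def total (x : Matrix (Fin r) (Fin r) ℂ) (μ : ℂ) (X : ∀ l, Matrix (Fin (2 * g l)) (Fin (2 * g l)) ℂ) :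
    Matrix (Index r g) (Index r g) ℂ :=
  Matrix.fromBlocks (withTate x μ) 0 0 (Matrix.blockDiagonal' X)

/-- `(X_1, …, X_k)` respects the polarisations, with multiplier `μ` -/
def Respects (Q X : ∀ l, Matrix (Fin (2 * g l)) (Fin (2 * g l)) ℂ) (μ : ℂ) : Prop :=
  ∀ l, X l * Q l * (X l)ᵀ = μ • (polB (2 * g l)).map (algebraMap ℚ ℂ)

/-- the matrices which respect the decomposition and the polarisations -/
def respecting (Q : ∀ l, Matrix (Fin (2 * g l)) (Fin (2 * g l)) ℂ) : Set (Matrix (Index r g) (Index r g) ℂ) :=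
  {y | ∃ (x : Matrix (Fin r) (Fin r) ℂ) (μ : ℂ) (X : ∀ l, Matrix (Fin (2 * g l)) (Fin (2 * g l)) ℂ),
    Respects Q X μ ∧ y = total x μ X}

/-- the fibre product of `T₀` and the torsors of the polarisations: the matrices `x ⊕ μ ⊕ X` such that `x ⊕ μ` is in
`T₀` and `X` respects the polarisations with the multiplier `μ` -/
def fibreProduct (Q : ∀ l, Matrix (Fin (2 * g l)) (Fin (2 * g l)) ℂ) (T₀ : Set (Matrix (Fin r ⊕ Unit) (Fin r ⊕ Unit) ℂ)) :
    Set (Matrix (Index r g) (Index r g) ℂ) :=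
  {y | ∃ (x : Matrix (Fin r) (Fin r) ℂ) (μ : ℂ) (X : ∀ l, Matrix (Fin (2 * g l)) (Fin (2 * g l)) ℂ),
    withTate x μ ∈ T₀ ∧ Respects Q X μ ∧ y = total x μ X}

/-- the projection to `M ⊕ ℚ(-1)` -/
def proj (T : Set (Matrix (Index r g) (Index r g) ℂ)) : Set (Matrix (Fin r ⊕ Unit) (Fin r ⊕ Unit) ℂ) :=
  {w | ∃ (x : Matrix (Fin r) (Fin r) ℂ) (μ : ℂ) (X : ∀ l, Matrix (Fin (2 * g l)) (Fin (2 * g l)) ℂ),
    w = withTate x μ ∧ total x μ X ∈ T}

theorem cm_withTate (x : Matrix (Fin r) (Fin r) ℂ) (μ : ℂ) :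
    Pool.Agent.Y123.SR.Cm (Sum.inr ()) (withTate x μ) := by
  rintro (k | ⟨⟩) hk
  · exact ⟨rfl, rfl⟩
  · exact absurd rfl hk

theorem eq_withTate {x : Matrix (Fin r ⊕ Unit) (Fin r ⊕ Unit) ℂ}
    (h2 : Pool.Agent.Y123.SR.Cm (Sum.inr ()) x) :
    x = withTate (Matrix.of fun i j => x (Sum.inl i) (Sum.inl j)) (x (Sum.inr ()) (Sum.inr ())) := by
  ext i j
  rcases i with i | ⟨⟩
  · rcases j with j | ⟨⟩
    · rfl
    · exact (h2 (Sum.inl i) (by simp)).2
  · rcases j with j | ⟨⟩
    · exact (h2 (Sum.inl j) (by simp)).1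
    · rfl

theorem fibreProduct_eq (Q : ∀ l, Matrix (Fin (2 * g l)) (Fin (2 * g l)) ℂ)
    {Ω₀ : Set (Matrix (Fin r ⊕ Unit) (Fin r ⊕ Unit) ℂ)} (hΩ : ∀ x ∈ Ω₀, IsUnit x) :
    Pool.Agent.U534.Univ.FS (fun l => (-1 / 2 : ℂ) • Q l) (Sum.inr ()) Ω₀ = fibreProduct Q Ω₀ := by
  ext y
  constructor
  · rintro ⟨x, X, h1, h2, h3, rfl⟩
    have h4 := eq_withTate h2
    refine ⟨Matrix.of fun i j => x (Sum.inl i) (Sum.inl j), x (Sum.inr ()) (Sum.inr ()), X, ?_,
      fun j => Pool.Agent.Y123.ST.rel_iff.2 (h3.2 j), ?_⟩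
    · rw [← h4]
      exact h1
    · unfold Pool.Agent.U534.Univ.ES total
      rw [← h4]
  · rintro ⟨x, μ, X, h1, h2, rfl⟩
    have hcm := cm_withTate x μ
    have h0 := (Pool.Agent.Y123.SR.cm_inv (hΩ _ h1) hcm).2.1
    exact ⟨withTate x μ, X, h1, hcm, ⟨h0, fun j => Pool.Agent.Y123.ST.rel_iff.1 (h2 j)⟩, rfl⟩

theorem unit_block {x : Matrix (Fin r) (Fin r) ℂ} {μ : ℂ} {X : ∀ l, Matrix (Fin (2 * g l)) (Fin (2 * g l)) ℂ}
    (h : IsUnit (total x μ X)) : IsUnit (withTate x μ) := by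
  rw [Matrix.isUnit_iff_isUnit_det] at h ⊢
  unfold total at h
  rw [Matrix.det_fromBlocks_zero₂₁] at h
  exact isUnit_of_mul_isUnit_left h

theorem respecting_sub (Q : ∀ l, Matrix (Fin (2 * g l)) (Fin (2 * g l)) ℂ) {T : Set (Matrix (Index r g) (Index r g) ℂ)}
    (hT : ∀ x ∈ T, IsUnit x) (h : T ⊆ respecting Q) :
    T ⊆ Pool.Agent.U534.Univ.FS (fun l => (-1 / 2 : ℂ) • Q l) (Sum.inr ()) {x | IsUnit x} := by
  intro y hy
  obtain ⟨x, μ, X, h1, rfl⟩ := h hy
  have h2 := unit_block (hT _ hy)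
  have hcm := cm_withTate x μ
  exact ⟨withTate x μ, X, h2, hcm, ⟨(Pool.Agent.Y123.SR.cm_inv h2 hcm).2.1, fun j => Pool.Agent.Y123.ST.rel_iff.1 (h1 j)⟩,
    rfl⟩

theorem proj_eq (Q : ∀ l, Matrix (Fin (2 * g l)) (Fin (2 * g l)) ℂ) {T : Set (Matrix (Index r g) (Index r g) ℂ)}
    (h : T ⊆ respecting Q) : Pool.Agent.U534.Univ.PS T = proj T := by
  ext w
  constructor
  · rintro ⟨X, hX⟩
    obtain ⟨x, μ, X', h1, h2⟩ := h hX
    obtain ⟨h3, h4⟩ := Pool.Agent.U534.Univ.ES_inj (show Pool.Agent.U534.Univ.ES w X =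
      Pool.Agent.U534.Univ.ES (withTate x μ) X' from h2)
    refine ⟨x, μ, X, h3, ?_⟩
    rw [h3] at hX
    exact hX
  · rintro ⟨x, μ, X, rfl, h1⟩
    exact ⟨X, h1⟩

end

/-- the smallest subtorsor of `ℚ(-1)` -/
theorem omega_tate {K : Subfield ℂ} (hK : FiniteDimensional ℚ K) {r : ℕ} (hr : r = 0) {C₀ : Matrix (Fin r) (Fin r) ℂ}
    {Ω₀ : Set (Matrix (Fin r ⊕ Unit) (Fin r ⊕ Unit) ℂ)} (h : IsOmega K (withTate C₀ (2 * Real.pi * Complex.I)) Ω₀) :
    Ω₀ = {x | IsUnit x} := by
  subst hr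
  have htr : Transcendental K (2 * Real.pi * Complex.I : ℂ) := by
    have : Algebra.IsAlgebraic ℚ K := Algebra.IsAlgebraic.of_finite ℚ K
    intro h1
    exact Pool.Agent.Y123.ST.transc_two_pi_I (h1.restrictScalars ℚ)
  have hind : AlgebraicIndependent K (fun _ : (Fin 0 ⊕ Unit) × (Fin 0 ⊕ Unit) => (2 * Real.pi * Complex.I : ℂ)) := by
    have : Unique ((Fin 0 ⊕ Unit) × (Fin 0 ⊕ Unit)) :=
      { default := (Sum.inr (), Sum.inr ())
        uniq := by
          rintro ⟨a | ⟨⟩, b | ⟨⟩⟩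
          · exact a.elim0
          · exact a.elim0
          · exact b.elim0
          · rfl }
    exact (algebraicIndependent_unique_type_iff).2 htr
  obtain ⟨⟨-, I, hI⟩, h2, -⟩ := h
  have hI0 : ∀ p ∈ I, p = 0 := by
    intro p hp
    have h3 := ((hI _).1 h2).2 p hp
    have h4 : (fun b : (Fin 0 ⊕ Unit) × (Fin 0 ⊕ Unit) => withTate C₀ (2 * Real.pi * Complex.I) b.1 b.2) =
        fun _ => (2 * Real.pi * Complex.I : ℂ) := by
      funext b
      obtain ⟨a | ⟨⟩, b | ⟨⟩⟩ := b
      · exact a.elim0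
      · exact a.elim0
      · exact b.elim0
      · rfl
    rw [h4, MvPolynomial.eval_map] at h3
    refine hind ?_
    show MvPolynomial.aeval (fun _ => (2 * Real.pi * Complex.I : ℂ)) p =
      MvPolynomial.aeval (fun _ => (2 * Real.pi * Complex.I : ℂ)) 0
    rw [map_zero]
    exact h3
  ext x
  rw [hI]
  refine ⟨fun h => h.1, fun h => ⟨h, fun p hp => ?_⟩⟩
  rw [hI0 p hp, map_zero, map_zero]

/-- Let `F_j` be families of hyperelliptic curves, `A_j` rich sets of natural numbers and `C_i` invertible complex matrices of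
arbitrary sizes (`j, i = 0, 1, …`). There are `t_0 < t_1 < …` with `t_j ∈ A_j`, such that for every number field `K` and every
`i` there is an `l` with: for all `l ≤ s_1 < … < s_k` every `K`-subtorsor which contains the period matrix of
`M_i ⊕ ℚ(-1) ⊕ ⨁_j h^1(C_(s_j))` and respects the decomposition and the polarisations is the fibre product of its projection
to `M_i ⊕ ℚ(-1)` (a `K`-subtorsor) with the torsors of the polarisations; and the smallest `K`-subtorsor which contains the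
period matrix is the fibre product with the smallest `K`-subtorsor `Ω₀` for `M_i ⊕ ℚ(-1)`, which for `M_i = 0` is the
multiplicative group. -/
theorem result (F : ℕ → Family) (A : ℕ → Set ℕ) (hA : ∀ j, Rich (A j)) (ρ : ℕ → ℕ)
    (C : ∀ i, Matrix (Fin (ρ i)) (Fin (ρ i)) ℂ) (hC : ∀ i, IsUnit (C i)) :
    ∃ t : ℕ → ℕ, StrictMono t ∧ (∀ j, t j ∈ A j) ∧
      (∀ j, StrictMono (branch (F j).a (F j).m (1 / (t j : ℝ)))) ∧
      ∀ K : Subfield ℂ, FiniteDimensional ℚ K → ∀ i : ℕ, ∃ l : ℕ, ∀ (k : ℕ) (s : Fin k → ℕ), StrictMono s →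
        (∀ j, l ≤ s j) →
        (∀ T : Set (Matrix (Index (ρ i) fun j => (F (s j)).g) (Index (ρ i) fun j => (F (s j)).g) ℂ),
          IsSubtorsor K T →
          total (C i) (2 * Real.pi * Complex.I) (fun j => (F (s j)).per (t (s j))) ∈ T →
          T ⊆ respecting (fun j => (F (s j)).pol (t (s j))) →
          IsSubtorsor K (proj T) ∧ T = fibreProduct (fun j => (F (s j)).pol (t (s j))) (proj T)) ∧
        ∃ Ω₀, IsOmega K (withTate (C i) (2 * Real.pi * Complex.I)) Ω₀ ∧ (ρ i = 0 → Ω₀ = {x | IsUnit x}) ∧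
          IsOmega K (total (C i) (2 * Real.pi * Complex.I) fun j => (F (s j)).per (t (s j)))
            (fibreProduct (fun j => (F (s j)).pol (t (s j))) Ω₀) := by
  obtain ⟨KK, hKK, hKK2⟩ := Pool.Agent.U534.Univ.exists_enum
  have hn : ∀ j, Even (2 * (F j).g) := fun j => even_two_mul _
  obtain ⟨t, ht1, ht2, ht3, ht4⟩ := Pool.Agent.U534.Univ.seq (n := fun j => 2 * (F j).g)
    (cc := fun j x => (F j).per x) (QQ := fun j x => (-1 / 2 : ℂ) • (F j).pol x)
    (OK := fun j x => StrictMono (branch (F j).a (F j).m (1 / (x : ℝ))) ∧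
      Pool.Agent.U534.Univ.Gd (fun x => (F j).per x) (fun x => (-1 / 2 : ℂ) • (F j).pol x) x) hn (fun j x h => h.2)
    (fun j => Pool.Agent.U534.Univ.hyp_step (hn j) (by have := (F j).pos; omega) (F j).a (F j).f (F j).eq (F j).m
      (F j).sorted) hA hKK hC
  refine ⟨t, ht1, ht2, fun j => (ht3 j).1, fun K hK i => ?_⟩
  obtain ⟨a, rfl⟩ := hKK2 K hK
  refine ⟨max a i, fun k s hs hl => ?_⟩
  have hall := ht4 a i k s hs (fun j => (le_max_left a i).trans (hl j)) (fun j => (le_max_right a i).trans (hl j))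
  have hQ : ∀ j a' b', ((-1 / 2 : ℂ) • (F (s j)).pol (t (s j))) a' b' ∈ KK a := by
    intro j a' b'
    have h1 := Pool.Agent.Y123.ST.half_mem (K := KK a) (N := 1) (Q := fun _ => (F (s j)).pol (t (s j)))
      (fun _ _ _ => SubfieldClass.ratCast_mem (KK a) _) 0 a' b'
    exact h1
  have hRs : Pool.Agent.U534.Univ.Rs (n := fun j => 2 * (F (s j)).g) (fun j => (-1 / 2 : ℂ) • (F (s j)).pol (t (s j)))
      (fun j => (F (s j)).per (t (s j))) (2 * Real.pi * Complex.I) :=
    ⟨Pool.Agent.U534.Univ.tpi_ne, fun j => (ht3 (s j)).2⟩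
  refine ⟨fun T hT hcT hTr => ?_, ?_⟩
  · have hT' := Pool.Agent.Y123.ST.subT_iff.1 hT
    obtain ⟨h1, h2⟩ := hall T hT' hcT (respecting_sub _ hT'.isUnit hTr)
    rw [proj_eq _ hTr] at h1 h2
    refine ⟨Pool.Agent.Y123.ST.subT_iff.2 h1, ?_⟩
    conv_lhs => rw [h2]
    exact fibreProduct_eq _ h1.isUnit
  · have hu := Pool.Agent.U534.Univ.wT_unit (hC i)
    have hΩ := Pool.Agent.Y123.SR.OmS_om (K := KK a) hu
    refine ⟨_, hΩ, fun h0 => omega_tate hK h0 hΩ, ?_⟩
    have h5 := Pool.Agent.U534.Univ.om_flat (n := fun j => 2 * (F (s j)).g) (fun j => hn (s j)) hQ hu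
      (Pool.Agent.U534.Univ.wT_cm (C i)) hRs hall hΩ
    rw [fibreProduct_eq _ (Pool.Agent.Y123.ST.subT_iff.1 hΩ.1).isUnit] at h5
    exact h5

end Pool.Agent.Results.MP_470b79_ag.UniversalCurves
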